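import Pool.Agent.U866.OM.Stm

/-!
# Project OM, package POS (helper123)
-/

set_option autoImplicit false

namespace Pool.Agent.U123.OM

open Pool.Agent.U866.OM Pool.Agent.H498R3.GB
open scoped BigOperators ContDiff Topology
open MeasureTheory Filter Metric

theorem contDiff_pd' {m : ℕ} {v : E m → ℝ} (hv : ContDiff ℝ ∞ v) (i : Fin m) :
    ContDiff ℝ ∞ (pd i v) := by
  unfold pd
  exact (hv.fderiv_right (m := ∞) (by simp)).clm_apply contDiff_const

theorem cont_Q {m : ℕ} {v : E m → ℝ} (hv : ContDiff ℝ ∞ v) : Continuous (Q v) := by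
  have hp : ∀ i, Continuous fun x => p v x i := fun i => (contDiff_pd' hv i).continuous
  have hA : ∀ i j, Continuous fun x => A v x i j := fun i j =>
    (contDiff_pd' (contDiff_pd' hv j) i).continuous
  unfold Q
  refine Continuous.sub (Continuous.mul ?_ ?_) ?_
  · exact continuous_finsetSum _ fun i _ => hA i i
  · exact continuous_finsetSum _ fun i _ => continuous_finsetSum _ fun j _ =>
      ((hA i j).mul (hp i)).mul (hp j)
  · exact continuous_finsetSum _ fun i _ =>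
      (continuous_finsetSum _ fun j _ => (hA i j).mul (hp j)).pow 2

theorem Q_zero {m : ℕ} {v : E m → ℝ} {x : E m} (h : v =ᶠ[𝓝 x] fun _ => 0) : Q v x = 0 := by
  have h1 : ∀ i, p v x i = 0 := by
    intro i
    unfold p pd
    rw [h.fderiv_eq]
    simp
  unfold Q
  simp [h1]

theorem bdd_trig (F : ℝ × ℝ × ℝ × ℝ → ℝ) (hF : Continuous F) :
    ∃ B, ∀ a b c d : ℝ, |a| ≤ 1 → |b| ≤ 1 → |c| ≤ 1 → |d| ≤ 1 → |F (a, b, c, d)| ≤ B := by
  have hK : IsCompact (Set.Icc (-1 : ℝ) 1 ×ˢ Set.Icc (-1 : ℝ) 1 ×ˢ Set.Icc (-1 : ℝ) 1 ×ˢ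
      Set.Icc (-1 : ℝ) 1) :=
    isCompact_Icc.prod (isCompact_Icc.prod (isCompact_Icc.prod isCompact_Icc))
  obtain ⟨B, hB⟩ := hK.exists_bound_of_continuousOn hF.continuousOn
  exact ⟨B, fun a b c d ha hb hc hd =>
    hB (a, b, c, d) ⟨abs_le.1 ha, abs_le.1 hb, abs_le.1 hc, abs_le.1 hd⟩⟩

theorem cut_exists (m : ℕ) : ∃ χ : E m → ℝ, IsCut χ := by
  let f : ContDiffBump (0 : E m) := ⟨1, 2, one_pos, one_lt_two⟩
  refine ⟨f, ⟨f.contDiff, fun x => f.nonneg, fun x => f.le_one, fun x hx => ?_, fun x hx => ?_⟩⟩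
  · exact f.zero_of_le_dist (by rw [dist_zero_right]; exact hx)
  · exact f.one_of_mem_closedBall (by rw [mem_closedBall, dist_zero_right]; exact hx)

theorem t_POS : S_TRIG → S_PSI → S_CUT → S_AVG → S_POS := by
  intro hT hP hC hA k
  obtain ⟨hψ, hψ0⟩ := hP k
  obtain ⟨χ, hχ⟩ := cut_exists (k + 3)
  obtain ⟨w, hwd⟩ : ∃ w : E (k + 3) → ℝ, w = fun y => χ y ^ 4 := ⟨_, rfl⟩
  have hw : ContDiff ℝ ∞ w := by rw [hwd]; exact hχ.smooth.pow 4
  have hw0 : ∀ y, y ∉ closedBall (0 : E (k + 3)) 2 → w y = 0 := by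
    intro y hy
    rw [mem_closedBall, dist_zero_right, not_le] at hy
    rw [hwd]
    show χ y ^ 4 = 0
    rw [hχ.zero y hy.le]
    norm_num
  have hwc : HasCompactSupport w := HasCompactSupport.intro (isCompact_closedBall 0 2) hw0
  have hwpos : 0 < ∫ y, w y := by
    refine hw.continuous.integral_pos_of_hasCompactSupport_nonneg_nonzero hwc (fun y => ?_)
      (x := 0) ?_
    · rw [hwd]
      exact pow_nonneg (hχ.nonneg y) 4
    · rw [hwd]
      show χ 0 ^ 4 ≠ 0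
      rw [hχ.one 0 (by simp)]
      norm_num
  -- the three bounded functions
  obtain ⟨P₀, hP₀⟩ : ∃ P : E (k + 3) → ℝ, P = fun z : E (k + 3) =>
      P0 (Real.cos (z 0)) (Real.sin (z 0)) (Real.cos (z 1)) (Real.sin (z 2)) := ⟨_, rfl⟩
  obtain ⟨P₁, hP₁⟩ : ∃ P : E (k + 3) → ℝ, P = fun z : E (k + 3) =>
      Real.sin (z 1) * Real.cos (z 1) / 2 * (1 / 8 + Real.sin (z 2) ^ 2 / 4) := ⟨_, rfl⟩
  obtain ⟨P₂, hP₂⟩ : ∃ P : E (k + 3) → ℝ, P = fun z : E (k + 3) =>
      - (Real.sin (z 2) * Real.cos (z 2)) / 8 := ⟨_, rfl⟩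
  have hT' : ∀ x, Q (psi k) x = 3 / 16 + pd 0 P₀ x + pd 1 P₁ x + pd 2 P₂ x := by
    intro x
    rw [hT k x, hP₀, hP₁, hP₂]
  have hc : ∀ j : Fin (k + 3), ContDiff ℝ ∞ fun z : E (k + 3) => Real.cos (z j) := fun j =>
    Real.contDiff_cos.comp (contDiff_coord j)
  have hs : ∀ j : Fin (k + 3), ContDiff ℝ ∞ fun z : E (k + 3) => Real.sin (z j) := fun j =>
    Real.contDiff_sin.comp (contDiff_coord j)
  have hd0 : ContDiff ℝ ∞ P₀ := by
    rw [hP₀]
    unfold P0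
    have a0 := hc 0
    have a1 := hs 0
    have a2 := hc 1
    have a3 := hs 2
    fun_prop
  have hd1 : ContDiff ℝ ∞ P₁ := by
    rw [hP₁]
    have a1 := hs 1
    have a2 := hc 1
    have a3 := hs 2
    fun_prop
  have hd2 : ContDiff ℝ ∞ P₂ := by
    rw [hP₂]
    have a1 := hs 2
    have a2 := hc 2
    fun_prop
  have hb0 : ∃ B, ∀ x, |P₀ x| ≤ B := by
    obtain ⟨B, hB⟩ := bdd_trig (fun q => P0 q.1 q.2.1 q.2.2.1 q.2.2.2) (by unfold P0; fun_prop)
    exact ⟨B, fun x => by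
      rw [hP₀]
      exact hB _ _ _ _ (Real.abs_cos_le_one _) (Real.abs_sin_le_one _) (Real.abs_cos_le_one _)
        (Real.abs_sin_le_one _)⟩
  have hb1 : ∃ B, ∀ x, |P₁ x| ≤ B := by
    obtain ⟨B, hB⟩ := bdd_trig (fun q => q.1 * q.2.1 / 2 * (1 / 8 + q.2.2.1 ^ 2 / 4)) (by fun_prop)
    exact ⟨B, fun x => by
      rw [hP₁]
      exact hB _ _ _ 0 (Real.abs_sin_le_one _) (Real.abs_cos_le_one _) (Real.abs_sin_le_one _)
        (by simp)⟩
  have hb2 : ∃ B, ∀ x, |P₂ x| ≤ B := by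
    obtain ⟨B, hB⟩ := bdd_trig (fun q => -(q.1 * q.2.1) / 8) (by fun_prop)
    exact ⟨B, fun x => by
      rw [hP₂]
      exact hB _ _ 0 0 (Real.abs_sin_le_one _) (Real.abs_cos_le_one _) (by simp) (by simp)⟩
  -- the limit of the averages
  have hint : ∀ (i : Fin (k + 3)) (P : E (k + 3) → ℝ), ContDiff ℝ ∞ P → ∀ η : ℝ,
      Integrable fun y => w y * pd i P (η⁻¹ • y) := by
    intro i P hPd η
    refine Continuous.integrable_of_hasCompactSupport ?_ hwc.mul_right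
    exact hw.continuous.mul ((contDiff_pd' hPd i).continuous.comp (continuous_const_smul _))
  have hwi : Integrable w := hw.continuous.integrable_of_hasCompactSupport hwc
  have hlim : Tendsto (fun η : ℝ => ∫ y, w y * Q (psi k) (η⁻¹ • y)) (𝓝[>] 0)
      (𝓝 (3 / 16 * ∫ y, w y)) := by
    have h0 := hA (k + 3) w hw hwc 0 P₀ hd0 hb0
    have h1 := hA (k + 3) w hw hwc 1 P₁ hd1 hb1
    have h2 := hA (k + 3) w hw hwc 2 P₂ hd2 hb2
    have h3 := (((tendsto_const_nhds (x := 3 / 16 * ∫ y, w y) (f := 𝓝[>] (0 : ℝ))).add h0).add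
      h1).add h2
    rw [add_zero, add_zero, add_zero] at h3
    refine h3.congr fun η => ?_
    have e : ∀ y, w y * Q (psi k) (η⁻¹ • y) = 3 / 16 * w y + w y * pd 0 P₀ (η⁻¹ • y) +
        w y * pd 1 P₁ (η⁻¹ • y) + w y * pd 2 P₂ (η⁻¹ • y) := by
      intro y
      rw [hT']
      ring
    simp_rw [e]
    rw [integral_add _ (hint 2 P₂ hd2 η), integral_add _ (hint 1 P₁ hd1 η),
      integral_add (hwi.const_mul _) (hint 0 P₀ hd0 η), integral_const_mul]
    · exact (hwi.const_mul _).add (hint 0 P₀ hd0 η)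
    · exact ((hwi.const_mul _).add (hint 0 P₀ hd0 η)).add (hint 1 P₁ hd1 η)
  obtain ⟨C, hC⟩ := hC (k + 3) χ (psi k) hχ hψ
  obtain ⟨V, hV⟩ : ∃ V : ℝ, V = volume.real (closedBall (0 : E (k + 3)) 2) := ⟨_, rfl⟩
  obtain ⟨L, hL⟩ : ∃ L : ℝ, L = 3 / 16 * ∫ y, w y := ⟨_, rfl⟩
  have hL0 : 0 < L := by rw [hL]; positivity
  rw [← hL] at hlim
  have e1 : ∀ᶠ η : ℝ in 𝓝[>] 0, L / 2 < ∫ y, w y * Q (psi k) (η⁻¹ • y) :=
    hlim.eventually (lt_mem_nhds (half_lt_self hL0))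
  have e2 : ∀ᶠ η : ℝ in 𝓝[>] 0, C * η * V < L / 2 := by
    have h1 : Tendsto (fun η : ℝ => C * η * V) (𝓝[>] 0) (𝓝 (C * 0 * V)) := by
      refine Tendsto.mono_left ?_ nhdsWithin_le_nhds
      exact ((continuous_const.mul continuous_id).mul continuous_const).tendsto 0
    rw [mul_zero, zero_mul] at h1
    exact h1.eventually (gt_mem_nhds (half_pos hL0))
  have e3 : ∀ᶠ η : ℝ in 𝓝[>] 0, η ≤ 1 :=
    nhdsWithin_le_nhds (Iic_mem_nhds zero_lt_one)
  obtain ⟨η, ⟨⟨h1, h2⟩, h3⟩, h4⟩ :=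
    (((e1.and e2).and e3).and (eventually_mem_nhdsWithin (s := Set.Ioi (0 : ℝ)))).exists
  have hη : 0 < η := h4
  have hηn : η ≠ 0 := hη.ne'
  obtain ⟨v, hv⟩ : ∃ v : E (k + 3) → ℝ, v = fun z => χ (η • z) * psi k z := ⟨_, rfl⟩
  have hvs : ContDiff ℝ ∞ v := by
    rw [hv]
    exact (hχ.smooth.comp (contDiff_id.const_smul η)).mul hψ.smooth
  have hv0 : ∀ x, 2 ≤ ‖η • x‖ → v x = 0 := by
    intro x hx
    rw [hv]
    show χ (η • x) * psi k x = 0
    rw [hχ.zero _ hx, zero_mul]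
  have hvc : HasCompactSupport v := by
    refine HasCompactSupport.intro (isCompact_closedBall 0 (2 / η)) fun x hx => hv0 x ?_
    rw [mem_closedBall, dist_zero_right, not_le, div_lt_iff₀ hη] at hx
    rw [norm_smul, Real.norm_of_nonneg hη.le, mul_comm]
    exact hx.le
  refine ⟨v, hvs, hvc, fun x => ?_, ?_⟩
  · rw [hv]
    exact mul_nonneg (hχ.nonneg _) (hψ0 x)
  -- the rescaled integrand
  have hg0 : ∀ y, y ∉ closedBall (0 : E (k + 3)) 2 → Q v (η⁻¹ • y) = 0 := by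
    intro y hy
    apply Q_zero
    rw [mem_closedBall, dist_zero_right, not_le] at hy
    have hopen : IsOpen {x : E (k + 3) | 2 < ‖η • x‖} :=
      isOpen_lt continuous_const (continuous_norm.comp (continuous_const_smul _))
    have hmem : η⁻¹ • y ∈ {x : E (k + 3) | 2 < ‖η • x‖} := by
      show 2 < ‖η • η⁻¹ • y‖
      rw [smul_inv_smul₀ hηn]
      exact hy
    filter_upwards [hopen.mem_nhds hmem] with x hx
    exact hv0 x (le_of_lt hx)
  have hgc : Continuous fun y => Q v (η⁻¹ • y) :=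
    (cont_Q hvs).comp (continuous_const_smul _)
  have hhc : Continuous fun y => w y * Q (psi k) (η⁻¹ • y) :=
    hw.continuous.mul ((cont_Q hψ.smooth).comp (continuous_const_smul _))
  have hgi : Integrable fun y => Q v (η⁻¹ • y) :=
    hgc.integrable_of_hasCompactSupport (HasCompactSupport.intro (isCompact_closedBall 0 2) hg0)
  have hhi : Integrable fun y => w y * Q (psi k) (η⁻¹ • y) :=
    hhc.integrable_of_hasCompactSupport hwc.mul_right
  have hdiff : |∫ y, (Q v (η⁻¹ • y) - w y * Q (psi k) (η⁻¹ • y))| ≤ C * η * V := by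
    rw [← setIntegral_eq_integral_of_forall_compl_eq_zero (s := closedBall (0 : E (k + 3)) 2), hV,
      ← Real.norm_eq_abs]
    · refine norm_setIntegral_le_of_norm_le_const
        (isCompact_closedBall (0 : E (k + 3)) 2).measure_lt_top fun y _ => ?_
      have := hC η hη h3 (η⁻¹ • y)
      rw [smul_inv_smul₀ hηn] at this
      rw [Real.norm_eq_abs, hwd, hv]
      exact this
    · intro y hy
      rw [hg0 y hy, hw0 y hy]
      ring
  have hpos : 0 < ∫ y, Q v (η⁻¹ • y) := by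
    rw [integral_sub hgi hhi] at hdiff
    have := (abs_le.1 hdiff).1
    linarith
  rw [Measure.integral_comp_smul, smul_eq_mul] at hpos
  exact pos_of_mul_pos_right hpos (abs_nonneg _)

end Pool.Agent.U123.OM
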